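import Pool.Agent.Q255.L2.StmY

set_option autoImplicit false
set_option maxHeartbeats 4000000

/-!
# Project L2Y: independence of orthogonal forms
-/

namespace Pool.Agent.Q214.L2Y

open Filter Topology MeasureTheory Finset
open Pool.Agent.Q255.IC Pool.Agent.Q255.IR Pool.Agent.Q255.EP Pool.Agent.Q255.L2 Pool.Agent.Q255.L2Y
open Pool.Agent.Q152.QT (gm)

/-- nodes and weights: the coefficients of a polynomial of degree at most `k` -/
theorem exists_wt (k : ℕ) : ∃ (x : Fin (k + 1) → ℝ) (w : ℕ → Fin (k + 1) → ℝ), (∀ r, |x r| ≤ 1) ∧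
    ∀ e m : ℕ, e ≤ k → m ≤ k → ∑ r, w e r * x r ^ m = if m = e then 1 else 0 := by
  set x : Fin (k + 1) → ℝ := fun r => (r : ℕ) / ((k : ℝ) + 1) with hx
  have hk : (0 : ℝ) < (k : ℝ) + 1 := by positivity
  have hinj : Function.Injective x := by
    intro r s h
    simp only [hx] at h
    rw [div_left_inj' hk.ne'] at h
    exact Fin.ext (by exact_mod_cast h)
  have hdet : IsUnit (Matrix.vandermonde x).det := by
    rw [isUnit_iff_ne_zero]
    exact Matrix.det_vandermonde_ne_zero_iff.2 hinj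
  have hinv := Matrix.nonsing_inv_mul (Matrix.vandermonde x) hdet
  refine ⟨x, fun e r => if h : e < k + 1 then (Matrix.vandermonde x)⁻¹ ⟨e, h⟩ r else 0, fun r => ?_, fun e m he hm => ?_⟩
  · simp only [hx]
    rw [abs_of_nonneg (by positivity), div_le_one hk]
    have : ((r : ℕ) : ℝ) ≤ k := by exact_mod_cast Nat.le_of_lt_succ r.2
    linarith
  · have he' : e < k + 1 := Nat.lt_succ_of_le he
    have hm' : m < k + 1 := Nat.lt_succ_of_le hm
    have h1 := congrFun (congrFun hinv ⟨e, he'⟩) ⟨m, hm'⟩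
    rw [Matrix.mul_apply, Matrix.one_apply] at h1
    simp only [Matrix.vandermonde_apply] at h1
    simp only [dif_pos he']
    rw [h1]
    by_cases hem : m = e
    · subst hem
      simp
    · rw [if_neg hem, if_neg]
      intro h2
      exact hem (Fin.mk.inj_iff.1 h2).symm

section tensor

variable {ι : Type} [Fintype ι] [DecidableEq ι] {k : ℕ} {x : Fin (k + 1) → ℝ} {w : ℕ → Fin (k + 1) → ℝ}

theorem T_mon (hw : ∀ e m : ℕ, e ≤ k → m ≤ k → ∑ r, w e r * x r ^ m = if m = e then 1 else 0) (e m : ι → ℕ)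
    (he : ∀ p, e p ≤ k) (hm : ∀ p, m p ≤ k) :
    ∑ r : ι → Fin (k + 1), (∏ p, w (e p) (r p)) * ∏ p, x (r p) ^ m p = if m = e then 1 else 0 := by
  have h1 : ∏ p, ∑ r : Fin (k + 1), w (e p) r * x r ^ m p = ∑ r : ι → Fin (k + 1), ∏ p, (w (e p) (r p) * x (r p) ^ m p) := by
    rw [Finset.prod_univ_sum, Fintype.piFinset_univ]
  have h2 : ∑ r : ι → Fin (k + 1), (∏ p, w (e p) (r p)) * ∏ p, x (r p) ^ m p = ∏ p, ∑ r : Fin (k + 1), w (e p) r * x r ^ m p := by
    rw [h1]
    refine sum_congr rfl fun r _ => ?_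
    rw [prod_mul_distrib]
  rw [h2]
  by_cases h : m = e
  · subst h
    rw [if_pos rfl]
    refine prod_eq_one fun p _ => ?_
    rw [hw _ _ (hm p) (hm p), if_pos rfl]
  · rw [if_neg h]
    obtain ⟨p, hp⟩ : ∃ p, m p ≠ e p := by
      by_contra hc
      push Not at hc
      exact h (funext hc)
    refine prod_eq_zero (mem_univ p) ?_
    rw [hw _ _ (he p) (hm p), if_neg hp]

theorem T_pow (hw : ∀ e m : ℕ, e ≤ k → m ≤ k → ∑ r, w e r * x r ^ m = if m = e then 1 else 0) (e : ι → ℕ)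
    (he : ∑ p, e p = k) (u : ι → ℝ) :
    ∑ r : ι → Fin (k + 1), (∏ p, w (e p) (r p)) * (∑ p, x (r p) * u p) ^ k = (Nat.multinomial univ e : ℝ) * ∏ p, u p ^ e p := by
  have hle : ∀ m : ι → ℕ, ∑ p, m p = k → ∀ p, m p ≤ k := by
    intro m hm p
    rw [← hm]
    exact single_le_sum (f := m) (fun _ _ => Nat.zero_le _) (mem_univ p)
  have h1 : ∀ r : ι → Fin (k + 1), (∏ p, w (e p) (r p)) * (∑ p, x (r p) * u p) ^ k =
      ∑ m ∈ piAntidiag univ k, ((Nat.multinomial univ m : ℝ) * ∏ p, u p ^ m p) * ((∏ p, w (e p) (r p)) * ∏ p, x (r p) ^ m p) := by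
    intro r
    rw [Finset.sum_pow_eq_sum_piAntidiag, mul_sum]
    refine sum_congr rfl fun m _ => ?_
    simp only [mul_pow]
    rw [prod_mul_distrib]
    ring
  simp only [h1]
  rw [sum_comm]
  have h2 : ∀ m ∈ piAntidiag (univ : Finset ι) k, ∑ r : ι → Fin (k + 1), ((Nat.multinomial univ m : ℝ) * ∏ p, u p ^ m p) *
      ((∏ p, w (e p) (r p)) * ∏ p, x (r p) ^ m p) = if m = e then (Nat.multinomial univ m : ℝ) * ∏ p, u p ^ m p else 0 := by
    intro m hm
    rw [mem_piAntidiag] at hm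
    rw [← mul_sum, T_mon hw e m (hle e he) (hle m hm.1)]
    split_ifs <;> ring
  rw [sum_congr rfl h2, sum_ite_eq', if_pos]
  rw [mem_piAntidiag]
  exact ⟨he, fun p _ => mem_univ p⟩

theorem T_sq (hw : ∀ e m : ℕ, e ≤ k → m ≤ k → ∑ r, w e r * x r ^ m = if m = e then 1 else 0) (e : ι → ℕ)
    (he : ∑ p, e p = k) (v : ι → ℝ) {n : ℕ} (hn : 2 * n = k) :
    ∑ r : ι → Fin (k + 1), (∏ p, w (e p) (r p)) * (∑ p, x (r p) ^ 2 * v p) ^ n =
      if ∀ p, Even (e p) then (Nat.multinomial univ (fun p => e p / 2) : ℝ) * ∏ p, v p ^ (e p / 2) else 0 := by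
  have hle : ∀ m : ι → ℕ, ∑ p, m p = k → ∀ p, m p ≤ k := by
    intro m hm p
    rw [← hm]
    exact single_le_sum (f := m) (fun _ _ => Nat.zero_le _) (mem_univ p)
  have h1 : ∀ r : ι → Fin (k + 1), (∏ p, w (e p) (r p)) * (∑ p, x (r p) ^ 2 * v p) ^ n =
      ∑ m ∈ piAntidiag univ n, ((Nat.multinomial univ m : ℝ) * ∏ p, v p ^ m p) * ((∏ p, w (e p) (r p)) * ∏ p, x (r p) ^ (2 * m p)) := by
    intro r
    rw [Finset.sum_pow_eq_sum_piAntidiag, mul_sum]
    refine sum_congr rfl fun m _ => ?_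
    simp only [mul_pow, ← pow_mul]
    rw [prod_mul_distrib]
    ring
  simp only [h1]
  rw [sum_comm]
  have h2 : ∀ m ∈ piAntidiag (univ : Finset ι) n, ∑ r : ι → Fin (k + 1), ((Nat.multinomial univ m : ℝ) * ∏ p, v p ^ m p) *
      ((∏ p, w (e p) (r p)) * ∏ p, x (r p) ^ (2 * m p)) = if (fun p => 2 * m p) = e then (Nat.multinomial univ m : ℝ) * ∏ p, v p ^ m p else 0 := by
    intro m hm
    rw [mem_piAntidiag] at hm
    have hm1 : ∑ p, 2 * m p = k := by
      rw [← mul_sum, ← hn]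
      congr 1
      exact hm.1
    rw [← mul_sum, T_mon hw e (fun p => 2 * m p) (hle e he) (hle (fun p => 2 * m p) hm1)]
    split_ifs <;> ring
  rw [sum_congr rfl h2]
  by_cases hev : ∀ p, Even (e p)
  · rw [if_pos hev]
    have hhalf : (fun p => 2 * (e p / 2)) = e := by
      funext p
      exact Nat.two_mul_div_two_of_even (hev p)
    have hmem : (fun p => e p / 2) ∈ piAntidiag (univ : Finset ι) n := by
      rw [mem_piAntidiag]
      refine ⟨?_, fun p _ => mem_univ p⟩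
      have h3 : 2 * ∑ p, e p / 2 = 2 * n := by
        rw [mul_sum, hn, ← he]
        exact sum_congr rfl fun p _ => congrFun hhalf p
      omega
    rw [sum_eq_single (fun p => e p / 2)]
    · rw [if_pos hhalf]
    · intro m _ hne
      rw [if_neg]
      intro h4
      apply hne
      funext p
      have h5 : 2 * m p = e p := congrFun h4 p
      show m p = e p / 2
      omega
    · intro h4
      exact absurd hmem h4
  · rw [if_neg hev]
    refine sum_eq_zero fun m _ => ?_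
    rw [if_neg]
    intro h4
    apply hev
    intro p
    rw [← h4]
    exact even_two_mul _

end tensor

theorem gm_two (j : ℕ) : gm (2 * j) * 2 ^ j * j.factorial = (2 * j).factorial := by
  unfold gm
  rw [if_pos (even_two_mul j)]
  rcases Nat.eq_zero_or_pos j with rfl | hj
  · simp
  · obtain ⟨i, rfl⟩ : ∃ i, j = i + 1 := ⟨j - 1, by omega⟩
    have e1 : 2 * (i + 1) - 1 = 2 * i + 1 := by omega
    have e2 : 2 * (i + 1) = (2 * i + 1) + 1 := by ring
    rw [e1]
    have h1 := Nat.factorial_eq_mul_doubleFactorial (2 * i + 1)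
    rw [← e2, Nat.doubleFactorial_two_mul] at h1
    rw [h1]
    ring

theorem gm_multi {ι : Type} [Fintype ι] (κ : ι → ℕ) :
    (gm (2 * ∑ p, κ p) : ℝ) * Nat.multinomial univ κ = Nat.multinomial univ (fun p => 2 * κ p) * ∏ p, (gm (2 * κ p) : ℝ) := by
  have h1 : ((∏ p, (κ p).factorial : ℕ) : ℝ) * Nat.multinomial univ κ = (∑ p, κ p).factorial := by
    exact_mod_cast Nat.multinomial_spec univ κ
  have h2 : ((∏ p, (2 * κ p).factorial : ℕ) : ℝ) * Nat.multinomial univ (fun p => 2 * κ p) = (2 * ∑ p, κ p).factorial := by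
    have := Nat.multinomial_spec univ (fun p => 2 * κ p)
    rw [← mul_sum] at this
    exact_mod_cast this
  have h3 : (gm (2 * ∑ p, κ p) : ℝ) * 2 ^ (∑ p, κ p) * (∑ p, κ p).factorial = (2 * ∑ p, κ p).factorial := by
    exact_mod_cast gm_two (∑ p, κ p)
  have h4 : (∏ p, (gm (2 * κ p) : ℝ)) * 2 ^ (∑ p, κ p) * ((∏ p, (κ p).factorial : ℕ) : ℝ) = ((∏ p, (2 * κ p).factorial : ℕ) : ℝ) := by
    push_cast
    rw [← prod_pow_eq_pow_sum, ← prod_mul_distrib, ← prod_mul_distrib]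
    refine prod_congr rfl fun p _ => ?_
    exact_mod_cast gm_two (κ p)
  have hP1 : (0 : ℝ) < ((∏ p, (κ p).factorial : ℕ) : ℝ) := by
    exact_mod_cast prod_pos fun p _ => Nat.factorial_pos _
  have hm : (0 : ℝ) < ((∑ p, κ p).factorial : ℝ) := by exact_mod_cast Nat.factorial_pos _
  have h2p : (0 : ℝ) < 2 ^ (∑ p, κ p) := by positivity
  have hpos : (0 : ℝ) < 2 ^ (∑ p, κ p) * (∑ p, κ p).factorial * ((∏ p, (κ p).factorial : ℕ) : ℝ) := by positivity
  refine mul_right_cancel₀ hpos.ne' ?_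
  set A : ℝ := (gm (2 * ∑ p, κ p) : ℝ)
  set B : ℝ := (Nat.multinomial univ κ : ℝ)
  set D : ℝ := (Nat.multinomial univ (fun p => 2 * κ p) : ℝ)
  set G : ℝ := ∏ p, (gm (2 * κ p) : ℝ)
  set s : ℝ := 2 ^ (∑ p, κ p)
  set F : ℝ := ((∑ p, κ p).factorial : ℝ)
  set P1 : ℝ := ((∏ p, (κ p).factorial : ℕ) : ℝ)
  set P2 : ℝ := ((∏ p, (2 * κ p).factorial : ℕ) : ℝ)
  set F2 : ℝ := ((2 * ∑ p, κ p).factorial : ℝ)
  calc A * B * (s * F * P1) = (A * s * F) * (P1 * B) := by ring
    _ = F2 * F := by rw [h3, h1]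
    _ = (P2 * D) * F := by rw [h2]
    _ = (G * s * P1) * D * F := by rw [h4]
    _ = D * G * (s * F * P1) := by ring

/-- the value of the weights at the Gaussian moments -/
theorem T_gauss {ι : Type} [Fintype ι] [DecidableEq ι] {k : ℕ} {x : Fin (k + 1) → ℝ} {w : ℕ → Fin (k + 1) → ℝ}
    (hw : ∀ e m : ℕ, e ≤ k → m ≤ k → ∑ r, w e r * x r ^ m = if m = e then 1 else 0) (e : ι → ℕ)
    (he : ∑ p, e p = k) (v : ι → ℝ) (hv : ∀ p, 0 ≤ v p) :
    ∑ r : ι → Fin (k + 1), (∏ p, w (e p) (r p)) * ((gm k : ℝ) * √(∑ p, x (r p) ^ 2 * v p) ^ k) =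
      (Nat.multinomial univ e : ℝ) * ∏ p, ((gm (e p) : ℝ) * √(v p) ^ e p) := by
  have hgodd : ∀ n : ℕ, ¬ Even n → gm n = 0 := by
    intro n hn
    unfold gm
    rw [if_neg hn]
  by_cases hk : Even k
  · obtain ⟨n, hn⟩ := hk
    have hn2 : 2 * n = k := by omega
    have hS : ∀ r : ι → Fin (k + 1), 0 ≤ ∑ p, x (r p) ^ 2 * v p := fun r =>
      sum_nonneg fun p _ => mul_nonneg (sq_nonneg _) (hv p)
    have h1 : ∀ r : ι → Fin (k + 1), (∏ p, w (e p) (r p)) * ((gm k : ℝ) * √(∑ p, x (r p) ^ 2 * v p) ^ k) =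
        (gm k : ℝ) * ((∏ p, w (e p) (r p)) * (∑ p, x (r p) ^ 2 * v p) ^ n) := by
      intro r
      have h2 : √(∑ p, x (r p) ^ 2 * v p) ^ k = (∑ p, x (r p) ^ 2 * v p) ^ n := by
        rw [← hn2, pow_mul, Real.sq_sqrt (hS r)]
      rw [h2]
      ring
    simp only [h1]
    rw [← mul_sum, T_sq hw e he v hn2]
    by_cases hev : ∀ p, Even (e p)
    · rw [if_pos hev]
      have hhalf : (fun p => 2 * (e p / 2)) = e := by
        funext p
        exact Nat.two_mul_div_two_of_even (hev p)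
      have hsum : ∑ p, e p / 2 = n := by
        have h3 : 2 * ∑ p, e p / 2 = 2 * n := by
          rw [mul_sum, hn2, ← he]
          exact sum_congr rfl fun p _ => congrFun hhalf p
        omega
      have h4 := gm_multi (fun p => e p / 2)
      rw [hsum, hn2, hhalf] at h4
      have h5 : ∏ p, ((gm (e p) : ℝ) * √(v p) ^ e p) = (∏ p, (gm (2 * (e p / 2)) : ℝ)) * ∏ p, v p ^ (e p / 2) := by
        rw [← prod_mul_distrib]
        refine prod_congr rfl fun p _ => ?_
        have h6 : 2 * (e p / 2) = e p := congrFun hhalf p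
        have h7 : √(v p) ^ e p = v p ^ (e p / 2) := by
          conv_lhs => rw [← h6]
          rw [pow_mul, Real.sq_sqrt (hv p)]
        rw [h6, h7]
      rw [h5, ← mul_assoc, ← mul_assoc, h4]
    · rw [if_neg hev, mul_zero]
      push Not at hev
      obtain ⟨p, hp⟩ := hev
      rw [prod_eq_zero (mem_univ p), mul_zero]
      rw [hgodd _ hp, Nat.cast_zero, zero_mul]
  · obtain ⟨p, hp⟩ : ∃ p, ¬ Even (e p) := by
      by_contra hc
      push Not at hc
      apply hk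
      rw [← he]
      exact Finset.even_sum _ fun p _ => hc p
    rw [hgodd k hk]
    simp only [Nat.cast_zero, zero_mul, mul_zero, sum_const_zero]
    rw [prod_eq_zero (mem_univ p), mul_zero]
    rw [hgodd _ hp, Nat.cast_zero, zero_mul]

/-- the functions are continuous -/
theorem uf_cont {b : Bool} {f a : ℕ → ℝ} {V V' : ℝ → ℝ} {y C : ℝ} (hV : Adm V V') (hf : ∀ n, |f n| ≤ 1)
    (ha : ∀ n : ℕ, 1 ≤ n → |a n| ≤ C * n) (hy : 0 < y) : Continuous fun x => uf b f a V x y := by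
  obtain ⟨C₀, c₀, hc₀, hVb⟩ := hV
  unfold uf
  refine continuous_const.mul ?_
  have hsum : Summable fun n : ℕ => |C| * |C₀| * (((n + 1 : ℕ) : ℝ) ^ 1 * Real.exp (-(c₀ * y) * ((n + 1 : ℕ) : ℝ))) := by
    refine Summable.mul_left _ ?_
    exact (summable_nat_add_iff 1).2 (Real.summable_pow_mul_exp_neg_nat_mul 1 (by positivity : 0 < c₀ * y))
  refine continuous_tsum (fun n => ?_) hsum fun n x => ?_
  · cases b
    · simp only [Bool.false_eq_true, if_false]
      fun_prop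
    · simp only [if_true]
      fun_prop
  · have hn : (0 : ℝ) < ((n + 1 : ℕ) : ℝ) := by exact_mod_cast Nat.succ_pos n
    have h1 : |a (n + 1)| ≤ |C| * ((n + 1 : ℕ) : ℝ) :=
      (ha (n + 1) (Nat.le_add_left 1 n)).trans (mul_le_mul_of_nonneg_right (le_abs_self _) hn.le)
    have e0 : ((n : ℝ) + 1) * y = ((n + 1 : ℕ) : ℝ) * y := by push_cast; ring
    have h2 : |V (((n : ℝ) + 1) * y)| ≤ |C₀| * Real.exp (-(c₀ * y) * ((n + 1 : ℕ) : ℝ)) := by
      rw [e0]
      refine (hVb _ (by positivity)).2.1.trans ?_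
      have e1 : -(c₀ * (((n + 1 : ℕ) : ℝ) * y)) = -(c₀ * y) * ((n + 1 : ℕ) : ℝ) := by ring
      rw [e1]
      exact mul_le_mul_of_nonneg_right (le_abs_self _) (Real.exp_pos _).le
    have h3 : |(if b then Real.cos (2 * Real.pi * ((n : ℝ) + 1) * x) else Real.sin (2 * Real.pi * ((n : ℝ) + 1) * x))| ≤ 1 := by
      split_ifs
      · exact Real.abs_cos_le_one _
      · exact Real.abs_sin_le_one _
    rw [Real.norm_eq_abs, abs_mul, abs_mul, abs_mul]
    calc |a (n + 1)| * |f (n + 1)| * |V (((n : ℝ) + 1) * y)| *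
          |(if b then Real.cos (2 * Real.pi * ((n : ℝ) + 1) * x) else Real.sin (2 * Real.pi * ((n : ℝ) + 1) * x))|
        ≤ (|C| * ((n + 1 : ℕ) : ℝ)) * 1 * (|C₀| * Real.exp (-(c₀ * y) * ((n + 1 : ℕ) : ℝ))) * 1 := by
          gcongr
          exact hf _
      _ = _ := by ring

/-- the constants of the Rankin-Selberg asymptotics are not negative -/
theorem gram_nonneg {ι : Type} {a : ι → ℕ → ℝ} {κ : ι → ι → ℝ} (h : Gram a κ) (i : ι) : 0 ≤ κ i i := by
  obtain ⟨η, C, hη, hη1, hC⟩ := h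
  by_contra hneg
  push Not at hneg
  have h1 : ∀ N : ℕ, 1 ≤ N → -κ i i ≤ C * (N : ℝ) ^ (-η) := by
    intro N hN
    have hN0 : (0 : ℝ) < N := by exact_mod_cast hN
    have h2 := hC i i N hN
    have h3 : 0 ≤ ∑ n ∈ Icc 1 N, a i n * a i n := sum_nonneg fun n _ => mul_self_nonneg _
    have h4 := (le_abs_self _).trans h2
    have h5 : (N : ℝ) ^ (1 - η) = N * (N : ℝ) ^ (-η) := by
      rw [sub_eq_add_neg, Real.rpow_add hN0, Real.rpow_one]
    rw [h5] at h4
    have h6 : -κ i i * N ≤ C * (N : ℝ) ^ (-η) * N := by nlinarith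
    exact le_of_mul_le_mul_right h6 hN0
  have h2 : Tendsto (fun N : ℕ => C * (N : ℝ) ^ (-η)) atTop (𝓝 (C * 0)) :=
    ((tendsto_rpow_neg_atTop hη).comp tendsto_natCast_atTop_atTop).const_mul C
  rw [mul_zero] at h2
  have h3 : -κ i i ≤ 0 := ge_of_tendsto h2 (by
    filter_upwards [eventually_ge_atTop 1] with N hN
    exact h1 N hN)
  linarith

theorem coef1 {ι : Type} {a : ι → ℕ → ℝ} (ha : Coef (fun _ => (1 : ℝ)) a) :
    ∃ C : ℝ, 0 ≤ C ∧ ∀ (i : ι) (n : ℕ), 1 ≤ n → |a i n| ≤ C * n := by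
  obtain ⟨C₁, hC₁⟩ := ha.1 1 one_pos
  refine ⟨|C₁| + 1, by positivity, fun i n hn => ?_⟩
  have hn1 : (1 : ℝ) ≤ n := by exact_mod_cast hn
  have h1 : a i n ^ 8 ≤ C₁ * (n : ℝ) * n := by
    have h0 := hC₁ i n hn
    rw [mul_one, Real.rpow_one] at h0
    refine le_trans ?_ h0
    exact single_le_sum (f := fun j => a i j ^ 8) (fun j _ => by positivity) (mem_Icc.2 ⟨hn, le_rfl⟩)
  have hc := abs_nonneg C₁
  have hDx : 1 ≤ (|C₁| + 1) * n := by nlinarith
  have h2 : C₁ * (n : ℝ) * n ≤ ((|C₁| + 1) * n) ^ 8 := by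
    have h3 : ((|C₁| + 1) * (n : ℝ)) ^ 2 ≤ ((|C₁| + 1) * n) ^ 8 := pow_le_pow_right₀ hDx (by norm_num)
    have h4 : C₁ * (n : ℝ) * n ≤ |C₁| * n * n :=
      mul_le_mul_of_nonneg_right (mul_le_mul_of_nonneg_right (le_abs_self _) (by linarith)) (by linarith)
    have h5 : |C₁| * (n : ℝ) * n ≤ ((|C₁| + 1) * n) ^ 2 := by
      have h6 : 0 ≤ (n : ℝ) * n := by positivity
      nlinarith [mul_nonneg hc h6, mul_nonneg (mul_nonneg hc hc) h6]
    linarith
  have h7 : |a i n| ^ 8 ≤ ((|C₁| + 1) * n) ^ 8 := by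
    have e : |a i n| ^ 8 = a i n ^ 8 := (by decide : Even 8).pow_abs (a i n)
    rw [e]
    exact h1.trans h2
  exact (pow_le_pow_iff_left₀ (abs_nonneg _) (by linarith) (by norm_num)).1 h7

theorem jc_abs (m n : ℕ) : |jc m n| ≤ 1 := by
  unfold jc
  rcases jacobiSym.trichotomy (n : ℤ) m with h | h | h <;> rw [h] <;> norm_num

/-- **S_YE** -/
theorem ye (h : S_YD) : S_YE := by
  classical
  intro ι _ a V V' κ hCoef hAdm hGram hκ e
  rcases Nat.eq_zero_or_pos (Fintype.card ι) with hI | hI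
  · -- no forms
    haveI : IsEmpty ι := Fintype.card_eq_zero_iff.1 hI
    refine ⟨1, 0, one_pos, le_rfl, Alm.of_forall fun J m _ _ b y α β _ _ _ hαβ _ => ?_⟩
    simp
  set k := ∑ p, e p with hk
  obtain ⟨x, w, hx, hw⟩ := exists_wt k
  obtain ⟨C₁, hC₁0, hC₁⟩ := Pool.Agent.Q214.L2Y.coef1 hCoef
  obtain ⟨c, C, hc, hC, hAlm⟩ := h ι a V V' κ hCoef hAdm hGram 1 1 1 k (Fintype.card ι) one_pos le_rfl one_pos hI
  set W : ℝ := ∑ r : ι → Fin (k + 1), |∏ p, w (e p) (r p)| with hW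
  have hW0 : 0 ≤ W := sum_nonneg fun _ _ => abs_nonneg _
  refine ⟨c, W * C, hc, mul_nonneg hW0 hC, hAlm.mono fun J m hJm hR b y α β hy1 hy2 hα hαβ hβ => ?_⟩
  have hJm' := hJm hR
  have hy0 : 0 < y := lt_of_lt_of_le (by positivity) hy1
  set eq := (Fintype.equivFin ι).symm with heq
  set v : ι → ℝ := fun i => κ i i / 2 * ∫ t in Set.Ioi (0 : ℝ), V i t ^ 2 with hv
  have hv0 : ∀ i, 0 ≤ v i := by
    intro i
    have := gram_nonneg hGram i
    exact mul_nonneg (by linarith) (integral_nonneg fun t => sq_nonneg _)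
  set u : ι → ℝ → ℝ := fun i s => uf (b i) (jc m) (a i) (V i) s y with hu
  have huc : ∀ i, Continuous (u i) := fun i => uf_cont (hAdm i) (jc_abs m) (hC₁ i) hy0
  -- the statement for all coefficients
  have key : ∀ l : ι → ℝ, (∀ i, |l i| ≤ 1) →
      |(∫ s in α..β, (∑ i, l i * u i s) ^ k) - (β - α) * ((gm k : ℝ) * √(∑ i, l i ^ 2 * v i) ^ k)| ≤ C * (2 : ℝ) ^ (-(c * J)) := by
    intro l hl
    have h1 := hJm' (fun j => eq j) (fun j => b (eq j)) (fun j => l (eq j)) (fun _ => 0) (fun _ => 1) y α β hy1 hy2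
      (fun j => hl _) (fun j => by simp) (fun j => ⟨le_rfl, le_rfl⟩) hα hαβ hβ
    simp only [mul_zero, add_zero, mul_one, sub_self] at h1
    have e1 : ∀ s : ℝ, ∑ j, l (eq j) * uf (b (eq j)) (jc m) (a (eq j)) (V (eq j)) s y = ∑ i, l i * u i s := by
      intro s
      exact Equiv.sum_comp eq fun i => l i * u i s
    have e2 : ∑ p, ∑ q, l (eq p) * l (eq q) * cv (κ (eq p) (eq q)) (V (eq p)) (V (eq q)) (b (eq p)) (b (eq q)) 1 1 0 = ∑ i, l i ^ 2 * v i := by
      rw [← Equiv.sum_comp eq fun i => l i ^ 2 * v i]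
      refine sum_congr rfl fun p _ => ?_
      rw [sum_eq_single p]
      · have e3 : cv (κ (eq p) (eq p)) (V (eq p)) (V (eq p)) (b (eq p)) (b (eq p)) 1 1 0 = v (eq p) := by
          unfold cv tr
          simp only [if_true, mul_one, Real.sqrt_one, one_mul, mul_zero, Real.cos_zero, hv]
          congr 1
          refine integral_congr_ae (Eventually.of_forall fun t => ?_)
          show V (eq p) t * V (eq p) t = V (eq p) t ^ 2
          ring
        rw [e3]
        ring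
      · intro q _ hqp
        have e4 : κ (eq p) (eq q) = 0 := hκ _ _ fun h5 => hqp (eq.injective h5).symm
        unfold cv
        rw [e4]
        ring
      · intro hp
        exact absurd (mem_univ p) hp
    rw [e2] at h1
    simp only [e1] at h1
    exact h1
  -- the weights
  have hl : ∀ (r : ι → Fin (k + 1)) (i : ι), |x (r i)| ≤ 1 := fun r i => hx _
  have h2 : |∑ r : ι → Fin (k + 1), (∏ p, w (e p) (r p)) * ((∫ s in α..β, (∑ i, x (r i) * u i s) ^ k) -
      (β - α) * ((gm k : ℝ) * √(∑ i, x (r i) ^ 2 * v i) ^ k))| ≤ W * (C * (2 : ℝ) ^ (-(c * J))) := by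
    refine (abs_sum_le_sum_abs _ _).trans ?_
    rw [hW, sum_mul]
    refine sum_le_sum fun r _ => ?_
    rw [abs_mul]
    exact mul_le_mul_of_nonneg_left (key _ (hl r)) (abs_nonneg _)
  have h3 : ∑ r : ι → Fin (k + 1), (∏ p, w (e p) (r p)) * ((∫ s in α..β, (∑ i, x (r i) * u i s) ^ k) -
      (β - α) * ((gm k : ℝ) * √(∑ i, x (r i) ^ 2 * v i) ^ k)) =
      (Nat.multinomial univ e : ℝ) * ((∫ s in α..β, ∏ i, u i s ^ e i) - (β - α) * ∏ i, ((gm (e i) : ℝ) * √(v i) ^ e i)) := by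
    have e5 : ∑ r : ι → Fin (k + 1), (∏ p, w (e p) (r p)) * (∫ s in α..β, (∑ i, x (r i) * u i s) ^ k) =
        (Nat.multinomial univ e : ℝ) * ∫ s in α..β, ∏ i, u i s ^ e i := by
      rw [← intervalIntegral.integral_const_mul]
      simp only [← intervalIntegral.integral_const_mul]
      rw [← intervalIntegral.integral_finset_sum]
      · refine intervalIntegral.integral_congr fun s _ => ?_
        exact T_pow hw e rfl fun i => u i s
      · intro r _
        refine Continuous.intervalIntegrable ?_ _ _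
        refine continuous_const.mul (Continuous.pow ?_ k)
        exact continuous_finset_sum _ fun i _ => continuous_const.mul (huc i)
    have e6 : ∑ r : ι → Fin (k + 1), (∏ p, w (e p) (r p)) * ((β - α) * ((gm k : ℝ) * √(∑ i, x (r i) ^ 2 * v i) ^ k)) =
        (β - α) * ((Nat.multinomial univ e : ℝ) * ∏ i, ((gm (e i) : ℝ) * √(v i) ^ e i)) := by
      rw [← T_gauss hw e rfl v hv0, mul_sum]
      refine sum_congr rfl fun r _ => ?_
      ring
    simp only [mul_sub]
    rw [sum_sub_distrib, e5, e6]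
    ring
  rw [h3, abs_mul, abs_of_nonneg (Nat.cast_nonneg _)] at h2
  have hmult : (1 : ℝ) ≤ (Nat.multinomial univ e : ℝ) := by
    exact_mod_cast Nat.multinomial_pos univ e
  have h4 : |(∫ s in α..β, ∏ i, u i s ^ e i) - (β - α) * ∏ i, ((gm (e i) : ℝ) * √(v i) ^ e i)| ≤
      (Nat.multinomial univ e : ℝ) * |(∫ s in α..β, ∏ i, u i s ^ e i) - (β - α) * ∏ i, ((gm (e i) : ℝ) * √(v i) ^ e i)| :=
    le_mul_of_one_le_left (abs_nonneg _) hmult
  refine (h4.trans h2).trans (le_of_eq ?_)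
  ring

end Pool.Agent.Q214.L2Y
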